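import Pool.Agent.W900.BJ.Fin

/-!
# How many strings of a random oracle have to be changed to destroy the bi-immune sets in `PSPACE`?

Relative to almost every oracle `PSPACE` is strongly different from `P` and from `NP`, in fact every
level of the polynomial hierarchy is strongly different from the next one: for every `k` some set in
`Σ_{k+1}` (so in `PSPACE`) splits all infinite sets in `E^{Σ_k}` into two infinite parts. The number
of changes is measured by a function `g`: the oracle `A` is obtained from `O` by changing, for all
large `n`, at most `g n` of the strings of length at most `n`. We show: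

* if `g` does not tend to infinity, then the separations remain strong: for almost every `O`, all
  `A` obtained by at most `g` changes and all `k`, some set in `Σ_{k+1}^A` splits all infinite sets
  which are in `E` relative to the join of `A` and a set in `Σ_k^A`;
* if `g` tends to infinity, however slowly, then almost every oracle `O` can be changed, by at most
  `g` changes, such that no set in `PSPACE^A` is bi-immune, not even against `P^A`: for every set in
  `PSPACE^A` some infinite set in `P^A` is a subset of it or of its complement; but still
  `PSPACE^A ⊄ NP^A`, the polynomial hierarchy is infinite even against polynomial advice, and there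
  are exponentially hard one-way functions.

So the threshold for the strong separations of `PSPACE` from `P` and from `NP` is at the functions
that tend to infinity, while the separations themselves need `2 ^ (n ^ ε)` changes.
-/

set_option autoImplicit false

namespace Pool.Agent.Results.MP_c578c8_lc.BiImmuneSets

open Filter MeasureTheory Pool.Agent.NPC Pool.Agent.H620R2.Gauge
open Pool.Agent.W911.AL (IsSigma)
open Pool.Agent.W900.CH (Close)
open Pool.Agent.W900.BJ (Splits)
open Pool.Agent.W900.OC (Hard)
open Pool.Agent.H591R3.PHG (IsSig IsSigPoly)
open Pool.Agent.H628R3.RO (randomOracle)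

theorem result : ∀ᵐ O ∂randomOracle,
    (∀ g : ℕ → ℝ, ¬ Tendsto g atTop atTop → ∀ A : Oracle, Close g O A → ∀ k : ℕ,
      ∃ L, IsSigma A (fun _ => k + 1) L ∧
        ∀ B, IsSigma A (fun _ => k) B → Splits (Pool.Agent.W911.KM.join A B) L) ∧
    ∀ g : ℕ → ℝ, Tendsto g atTop atTop → ∃ A : Oracle, Close g O A ∧
      (∀ L, IsPSPACE A L → ∃ S : Set (List Bool), S.Infinite ∧ IsP A S ∧ (S ⊆ L ∨ S ⊆ Lᶜ)) ∧
      (∀ k, ∃ L, IsSig A (k + 1) L ∧ ¬ IsSigPoly A k L) ∧ ∃ f, Hard A f :=
  Pool.Agent.W900.BJ.ae_main

end Pool.Agent.Results.MP_c578c8_lc.BiImmuneSets
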