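import Pool.Agent.W901.FC.LawD

/-!
# `PSPACE ⊆ NP` and the prediction of answers: how many help bits give how much advantage

Polynomial time is Mathlib's `Turing.TM2ComputableInPolyTime`, for functions on bit strings, and
polynomial space (`InPSPACE`) is measured on the same machines; `PSPACEHard` is hardness under
polynomial-time many-one reductions.

Let a total nondeterministic polynomial-time algorithm (every input has at least one output, possibly
many) make predictions for the answers to the `m` questions whether `y` is in `A`, `y` in a list of
`m` strings; it may abstain on some of them. How much can, for all outputs, the number of right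
predictions differ from the number of wrong ones, for every list, if the algorithm gets in addition
`k` bits of help, which may depend on the list in any way?

`NHelpOn (Short ε) k t A`: the difference is at least `t` for all outputs on all lists of `m ≥ m₀`
strings of length at most `m ^ ε`; `NHelpOn Every k t A`: for all lists of `m ≥ m₀` strings;
`HelpAll k t A`: for all lists of `m ≥ m₀` strings, by a deterministic algorithm.

There is a constant `C` such that for all `k`, `t` with `t ^ 2 ≥ C * 2 ^ k` or
`t ^ 2 ≥ (k + 1) * 2 ^ (k + 1)` and all `ε > 0`

`PSPACE ⊆ NP` iff `NHelpOn (Short ε) k t A` for some `PSPACE`-hard set `A` iff
`NHelpOn Every k t A` for all `A` in `PSPACE`,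

while `HelpAll k t A` holds for all sets `A` whatsoever if `(t - 1) ^ 2 < 2 ^ k`. So without help
(`k = 0`) the difference `1` is free and the difference `2` gives `PSPACE ⊆ NP`; with one bit of help
the difference `2` is free and `3` gives `PSPACE ⊆ NP`.

Proof. The outputs of the nondeterministic algorithm which are used are guessed, with their witnesses,
and kept in a table. Functions computable in polynomial space have polynomially long candidate lists
(with the table): the prefixes of the value are found in a search tree, where a prefix survives only
if for all seeds of a hash function the `K = 2 ^ k` vectors of predictions for its label questions are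
compatible with its label. The labels are all sign vectors with at most `K` changes of sign, up to `K`
further exceptional entries: polynomially many. By the theorem of Borsuk and Ulam (in the form of Hobby
and Rice) there is a step function with `K` jumps which is orthogonal to all `K` vectors, and by
Spencer's theorem (linear discrepancy) its at most `K` fractional entries can be rounded such that
all `K` scalar products are smaller than `C * √ K`. So for each seed one label is incompatible;
pairwise independent hashing of more than `2 * F ^ 2` prefixes to `F` labels hits the incompatible
label for some seed. The truth of a quantified formula is the value of an arithmetized expression;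
the candidate lists for the restrictions of the partial expressions to lines give its value in
polynomial time from the tables (`Pool.Agent.W920.LS`, `Pool.Agent.W920.LN`), and the tables are the
witness.

Free advantage: the rows of a Hadamard matrix, by Parseval's equation.
-/

set_option autoImplicit false

namespace Pool.Agent.Results.MP_c578c8_lc.HelpBitsLaw

open Pool.Agent.NPC Pool.Agent.H623R2.PS Pool.Agent.W901.AT Pool.Agent.W901.FH

theorem result : ∃ C : ℕ, ∀ (k t : ℕ) (ε : ℝ),
    (0 < ε → C * 2 ^ k ≤ t ^ 2 ∨ (k + 1) * 2 ^ (k + 1) ≤ t ^ 2 → List.TFAE
      [∀ L : Set (List Bool), InPSPACE L → InNP L,
        ∃ A : Set (List Bool), PSPACEHard A ∧ NHelpOn (Short ε) k t A,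
        ∀ A : Set (List Bool), InPSPACE A → NHelpOn Every k t A]) ∧
    ((t - 1) ^ 2 < 2 ^ k → ∀ A : Set (List Bool), HelpAll k t A) :=
  help_law_nspace

end Pool.Agent.Results.MP_c578c8_lc.HelpBitsLaw
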