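import Mathlib
import Pool.Agent.NPC.Defs
import Pool.Agent.NPC.Classes
import Pool.Agent.H623R2.PS.Defs
import Pool.Agent.W995.PN.Defs
import Pool.Agent.W995.PN.PSp
import Pool.Agent.W995.PN.RedPoly
import Pool.Agent.W995.PN.NilPoly

/-!
# A dichotomy for a family of problems in polynomial space

For a finite group `G` the problem `PRED e` asks for the content of a cell of a network of cells
over `G` (each cell is updated by a word in the cells and in constants) after a number `T` of steps
given in binary.  If `G` is nilpotent then the problem is in `P`, and in all other cases it is
`PSPACE`-complete, so that it is in `P` (in `NP`) if and only if `PSPACE` is contained in `P`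
(in `NP`).
-/

set_option autoImplicit false

namespace Pool.Agent.Results.MP_c578c8_lc.NilpotentDichotomy

open Pool.Agent.NPC Pool.Agent.H623R2.PS Pool.Agent.W995.PN

/-- The prediction problem for networks of cells over a finite group is in `P` if the group is
nilpotent, and it is `PSPACE`-complete if the group is not nilpotent. -/
theorem result (G : Type) [Group G] [Fintype G] (e : Fin (Fintype.card G) ≃ G) :
    (Group.IsNilpotent G → InP (lang (PRED e))) ∧
    (¬ Group.IsNilpotent G → PSPACEComplete (lang (PRED e))) :=
  ⟨pred_inP e, fun hG => ⟨pred_inPSPACE e, pred_hard e hG⟩⟩

end Pool.Agent.Results.MP_c578c8_lc.NilpotentDichotomy
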