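import Pool.Agent.W920.LN.Main

/-!
# `NP = PSPACE` and nondeterministic prediction of the answers to parallel queries

`InPSPACE`, `PSPACEHard` (polynomial space, hardness under polynomial-time many-one reductions) are
those of `Pool.Agent.H623R2.PS.Defs`, `InNP` is that of `Pool.Agent.NPC.Defs`, polynomial time is
Mathlib's `Turing.TM2ComputableInPolyTime`; `Outputs`, `NPredictable` and `NFullyPredictable` are
those of `Pool.Agent.W920.LN.Defs`, `Beats` is that of `Pool.Agent.W901.AT.DefsP`.

A set `A` is nondeterministically `(δ, ε)`-predictable if there is a total nondeterministic
polynomial-time algorithm (every input has at least one output, possibly many different ones) which,
given a nonempty list of `m` questions of length at most `m ^ ε` about membership in `A` and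
`O(log n)` bits of information about this list from an arbitrary source, has only outputs which are
predictions for some `s > 0` of the questions such that the numbers of right and of wrong
predictions differ by at least `m ^ δ * √ s`.  It is nondeterministically fully `δ`-predictable if
this holds for all lists of questions, of any length, with predictions for all questions.

The theorem: for all `ε > 0` and `0 < δ ≤ 1 / 2`,

`PSPACE ⊆ NP` iff some `PSPACE`-hard set is nondeterministically `(δ, ε)`-predictable iff every set
in `PSPACE` is nondeterministically fully `δ`-predictable.

(For `δ ≤ 0` every set is fully `δ`-predictable, even deterministically, so the threshold is sharp.)

Proof.  Let some `PSPACE`-hard set be nondeterministically predictable.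

1. Let `F` be a function computable in polynomial space. The prefixes of the value `F x` are hashed
   to polynomials over a field with `p` elements and the parities of the values of the polynomial
   belonging to the right prefix are asked: these are polynomially many lists of `PSPACE` questions,
   which depend on `x` only. Guess one output of the algorithm for each of these lists and each of
   the polynomially many values of the information: a table. Every valid table yields a list of
   candidates for `F x` which contains `F x`, of a length bounded independently of the table.
2. The truth of a quantified formula is the value of an arithmetized expression over a field with a
   polynomially large prime number `p` of elements, with one operator for each quantifier and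
   linearization operators in between, so that all partial expressions have small degree in each
   variable. The code of the restriction of a partial expression to a line is computable in
   polynomial space, hence, after guessing a table, it has a list of candidates.
3. Going through the operators one guesses a table, chooses a field element `t` at which all
   different candidates have different values, and sets the variable to `t`. At the end the value of
   the matrix is computed; going back, the value at `t` tells which candidate is the right one, and
   this one gives the previous value. So all accepting computations compute the right truth value.
-/

set_option autoImplicit false

namespace Pool.Agent.Results.MP_c578c8_lc.NondeterministicPrediction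

open Pool.Agent.NPC Pool.Agent.H623R2.PS Pool.Agent.W920.LN

/-- **The law of nondeterministic prediction for `PSPACE`.** -/
theorem result (δ ε : ℝ) (h1 : 0 < δ) (h2 : δ ≤ 1 / 2) (h3 : 0 < ε) : List.TFAE
    [∀ L : Set (List Bool), InPSPACE L → InNP L,
      ∃ A : Set (List Bool), PSPACEHard A ∧ NPredictable δ ε A,
      ∀ A : Set (List Bool), InPSPACE A → NFullyPredictable δ A] :=
  nondet_law h1 h2 h3

end Pool.Agent.Results.MP_c578c8_lc.NondeterministicPrediction
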