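import Mathlib
import Pool.Agent.NPC.Defs
import Pool.Agent.NPC.Classes
import Pool.Agent.H623R2.PS.Defs
import Pool.Agent.W995.PN.Defs
import Pool.Agent.W995.CT.Defs
import Pool.Agent.W995.CT.HardP
import Pool.Agent.W995.CT.PSpC
import Pool.Agent.W995.CT.NPh
import Pool.Agent.W995.CT.NPm
import Pool.Agent.W995.CT.Ab5

/-!
# A trichotomy for a family of problems in polynomial space

For a finite group `G` the control problem `CTRL e` asks whether the free cells of a network of
cells over `G` can be filled, at all times, in such a way that after a number `T` of steps given in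
binary some cells have prescribed contents.  The problem is in `P` if `G` is abelian, it is
`NP`-complete if `G` is nilpotent and not abelian, and it is `PSPACE`-complete if `G` is not
nilpotent.
-/

set_option autoImplicit false

namespace Pool.Agent.Results.MP_c578c8_lc.ZControlTrichotomy

open Pool.Agent.NPC Pool.Agent.H623R2.PS Pool.Agent.W995.PN Pool.Agent.W995.CT

/-- The control problem for networks of cells over a finite group `G` is in `P` if `G` is abelian,
it is `NP`-complete if `G` is nilpotent and not abelian, and it is `PSPACE`-complete if `G` is not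
nilpotent. -/
theorem result (G : Type) [Group G] [Fintype G] (e : Fin (Fintype.card G) ≃ G) :
    ((∀ x y : G, x * y = y * x) → InP (lang (CTRL e))) ∧
    (Group.IsNilpotent G → (∃ x y : G, x * y ≠ y * x) →
      InNP (lang (CTRL e)) ∧ NPHard (lang (CTRL e))) ∧
    (¬ Group.IsNilpotent G → PSPACEComplete (lang (CTRL e))) :=
  ⟨ctrl_inP e, fun hG hne => ⟨ctrl_inNP e hG, ctrl_npHard e hG hne⟩,
    fun hG => ⟨ctrl_inPSPACE e, ctrl_hard e hG⟩⟩

end Pool.Agent.Results.MP_c578c8_lc.ZControlTrichotomy
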